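import Pool.Agent.Helper73.LF.Goals

/-!
# Linear forms in algebraic numbers (MP_c307ca_nt): the final statement from the packets
-/

set_option autoImplicit false

open Finset

namespace Pool.Agent.Helper71.LF

open Pool.Agent.Helper98.Lang Pool.Agent.Helper73.LF

theorem nd_le (z : ℝ) (p : ℤ) : nd z ≤ |z - p| := round_le z p

theorem nd_nonneg (z : ℝ) : 0 ≤ nd z := abs_nonneg _

theorem nd_pos {m : ℕ} {x : Fin m → ℝ} (hS : SchP x) (n : ℕ) (hn : 1 ≤ n) (i : Fin m) :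
    0 < nd (n * x i) := by
  obtain ⟨c, hc, h⟩ := hS 1 one_pos
  have h1 := h n hn
  have hn' : (0 : ℝ) < n := by exact_mod_cast hn
  have h2 : 0 < ∏ i, nd (n * x i) := lt_of_lt_of_le (mul_pos hc (Real.rpow_pos_of_pos hn' _)) h1
  refine lt_of_le_of_ne (nd_nonneg _) ?_
  intro h3
  rw [Finset.prod_eq_zero (Finset.mem_univ i) h3.symm] at h2
  exact lt_irrefl _ h2

theorem pr_nonneg {m : ℕ} (θ : Fin m → ℝ) (H h : ℕ) : 0 ≤ Pr θ H h := by
  refine Finset.prod_nonneg fun i _ => le_min (by positivity) ?_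
  exact div_nonneg zero_le_one (nd_nonneg _)

theorem pr_mul {m : ℕ} (x : Fin m → ℝ) (H h q : ℕ) :
    Pr (fun i => (q : ℝ) * x i) H h = Pr x H (h * q) := by
  unfold Pr
  refine Finset.prod_congr rfl fun i _ => ?_
  have : (h : ℝ) * ((q : ℝ) * x i) = ((h * q : ℕ) : ℝ) * x i := by push_cast; ring
  rw [this]

theorem log_pos {q : ℕ} (hq : 2 ≤ q) : 0 < Real.log q := by
  refine Real.log_pos ?_
  have : (2 : ℝ) ≤ q := by exact_mod_cast hq
  linarith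

theorem tq_pos {e c : ℝ} (hc : 0 < c) {q : ℕ} (hq : 2 ≤ q) : 0 < tq e c q := by
  unfold tq
  have h1 : (0 : ℝ) < q := by exact_mod_cast (by omega : 0 < q)
  exact div_pos hc (mul_pos h1 (Real.rpow_pos_of_pos (log_pos hq) _))

/-- The vectors in the box for which the value at `q` is close to an integer. -/
noncomputable def Sq {m : ℕ} (x : Fin m → ℝ) (e c : ℝ) (H q : ℕ) : Finset (Fin m → ℤ) := by
  classical
  exact (Fintype.piFinset fun _ : Fin m => Icc (-(H : ℤ)) H).filter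
    (fun a => nd (∑ i, (a i : ℝ) * ((q : ℝ) * x i)) ≤ tq e c q)

theorem mem_Sq {m : ℕ} (x : Fin m → ℝ) (e c : ℝ) (H q : ℕ) (a : Fin m → ℤ) :
    a ∈ Sq x e c H q ↔ (∀ i, |a i| ≤ (H : ℤ)) ∧
      nd (∑ i, (a i : ℝ) * ((q : ℝ) * x i)) ≤ tq e c q := by
  classical
  unfold Sq
  rw [Finset.mem_filter, Fintype.mem_piFinset]
  simp only [Finset.mem_Icc, abs_le]

theorem card_Sq_le {m : ℕ} (x : Fin m → ℝ) (e c : ℝ) (H q : ℕ) :
    ((Sq x e c H q).card : ℝ) ≤ (2 * (H : ℝ) + 1) ^ m := by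
  classical
  have h1 : (Sq x e c H q).card ≤ (2 * H + 1) ^ m := by
    unfold Sq
    refine (Finset.card_filter_le _ _).trans ?_
    rw [Fintype.card_piFinset]
    have : (Icc (-(H : ℤ)) H).card = 2 * H + 1 := by
      rw [Int.card_Icc]; omega
    simp [this]
  calc ((Sq x e c H q).card : ℝ) ≤ (((2 * H + 1) ^ m : ℕ) : ℝ) := by exact_mod_cast h1
    _ = (2 * (H : ℝ) + 1) ^ m := by push_cast; rfl

theorem card_Sq (h2 : GFou) {m : ℕ} {x : Fin m → ℝ} (hS : SchP x) {e c : ℝ} (hc : 0 < c)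
    (H q : ℕ) (hq : 2 ≤ q) :
    ((Sq x e c H q).card : ℝ) ≤ 12 * tq e c q * (2 * (H : ℝ) + 1) ^ m +
      24 * (tq e c q * ∑ h ∈ Ico 1 (Tq e c q), Pr x H (h * q)) := by
  have ht := tq_pos (e := e) hc hq
  have hB : (0 : ℝ) ≤ (2 * (H : ℝ) + 1) ^ m := by positivity
  have hP : 0 ≤ ∑ h ∈ Ico 1 (Tq e c q), Pr x H (h * q) :=
    Finset.sum_nonneg fun h _ => pr_nonneg _ _ _
  rcases le_or_gt (1 / 2) (tq e c q) with hle | hlt
  · have h3 := card_Sq_le x e c H q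
    have h4 : (2 * (H : ℝ) + 1) ^ m ≤ 12 * tq e c q * (2 * (H : ℝ) + 1) ^ m := by
      nlinarith
    have h5 := mul_nonneg ht.le hP
    linarith
  · have h1 : 1 < 1 / (2 * tq e c q) := by
      rw [lt_div_iff₀ (by positivity)]; linarith
    have hT : 1 ≤ Tq e c q := by
      unfold Tq
      exact Nat.le_floor (by exact_mod_cast h1.le)
    have hT' : (1 : ℝ) ≤ Tq e c q := by exact_mod_cast hT
    have hT1 : (Tq e c q : ℝ) ≤ 1 / (2 * tq e c q) := Nat.floor_le (by positivity)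
    have hT2 : 1 / (2 * tq e c q) < (Tq e c q : ℝ) + 1 := Nat.lt_floor_add_one _
    have h3 : tq e c q ≤ 1 / (2 * (Tq e c q : ℝ)) := by
      rw [le_div_iff₀ (by positivity)] at hT1 ⊢
      linarith
    have h4 : 3 / (Tq e c q : ℝ) ≤ 12 * tq e c q := by
      rw [div_lt_iff₀ (by positivity)] at hT2
      rw [div_le_iff₀ (by positivity)]
      nlinarith
    have h5 := h2 m H (Tq e c q) (fun i => (q : ℝ) * x i) hT (by
      intro h hh i
      have h6 : (h : ℝ) * ((q : ℝ) * x i) = ((h * q : ℕ) : ℝ) * x i := by push_cast; ring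
      show 0 < nd ((h : ℝ) * ((q : ℝ) * x i))
      rw [h6]
      refine nd_pos hS _ ?_ i
      exact Nat.succ_le_of_lt (Nat.mul_pos (by omega) (by omega))) (Sq x e c H q) (by
      intro a ha
      rw [mem_Sq] at ha
      exact ⟨ha.1, ha.2.trans h3⟩)
    have h7 : ∑ h ∈ Ico 1 (Tq e c q), Pr (fun i => (q : ℝ) * x i) H h =
        ∑ h ∈ Ico 1 (Tq e c q), Pr x H (h * q) :=
      Finset.sum_congr rfl fun h _ => pr_mul x H h q
    rw [h7] at h5
    refine h5.trans ?_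
    have h8 : 0 ≤ (2 * (H : ℝ) + 1) ^ m + 2 * ∑ h ∈ Ico 1 (Tq e c q), Pr x H (h * q) := by
      positivity
    have h9 := mul_le_mul_of_nonneg_right h4 h8
    linarith

/-- `24 (m log H) ^ e ≤ c H ^ (k / 2)` for large `H`. -/
theorem log_small (m : ℕ) (e c k : ℝ) (hc : 0 < c) (hk : 0 < k) (hm : 1 ≤ m) :
    ∃ H2 : ℕ, 2 ≤ H2 ∧ ∀ H : ℕ, H2 ≤ H →
      24 * ((m : ℝ) * Real.log H) ^ e ≤ c * (H : ℝ) ^ (k / 2) := by
  have hm' : (0 : ℝ) < m := by exact_mod_cast hm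
  have hme : 0 < (m : ℝ) ^ e := Real.rpow_pos_of_pos hm' _
  have h1 := isLittleO_log_rpow_rpow_atTop (s := k / 2) e (half_pos hk)
  have h2 := h1.def (c := c / (24 * (m : ℝ) ^ e)) (by positivity)
  have h3 := tendsto_natCast_atTop_atTop (R := ℝ) |>.eventually h2
  obtain ⟨N, hN⟩ := Filter.eventually_atTop.1 h3
  refine ⟨max N 2, le_max_right _ _, ?_⟩
  intro H hH
  have hH1 : N ≤ H := le_trans (le_max_left _ _) hH
  have hH2 : 2 ≤ H := le_trans (le_max_right _ _) hH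
  have hH3 : (0 : ℝ) < H := by exact_mod_cast (by omega : 0 < H)
  have hl := log_pos hH2
  have h4 := hN H hH1
  rw [Real.norm_of_nonneg (Real.rpow_nonneg hl.le _),
    Real.norm_of_nonneg (Real.rpow_nonneg hH3.le _)] at h4
  rw [Real.mul_rpow hm'.le hl.le]
  have h5 : 24 * ((m : ℝ) ^ e * Real.log H ^ e) ≤
      24 * ((m : ℝ) ^ e * (c / (24 * (m : ℝ) ^ e) * (H : ℝ) ^ (k / 2))) := by
    gcongr
  refine h5.trans (le_of_eq ?_)
  field_simp

theorem final_of (h1 : GSch) (h2 : GFou) (h3 : GBlk) (h4 : GLog) :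
    Pool.Agent.Helper73.LF.Final := by
  classical
  intro e he
  refine ⟨12 * (1 + 1 / e) + 1, ?_⟩
  intro m x hm halg hind c k hc hk
  have hS : SchP x := h1 m x halg hind
  obtain ⟨H1, hH1⟩ := h3 m x hS e c k he hc hk
  obtain ⟨H2, hH22, hH2⟩ := log_small m e c k hc hk hm
  refine ⟨max H1 H2, ?_⟩
  intro H hH Q hQ
  have hHa : H1 ≤ H := le_trans (le_max_left _ _) hH
  have hHb : H2 ≤ H := le_trans (le_max_right _ _) hH
  have hHpos : (0 : ℝ) < H := by exact_mod_cast (by omega : 0 < H)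
  have hHone : (1 : ℝ) ≤ H := by exact_mod_cast (by omega : 1 ≤ H)
  set X : ℕ := ⌊(H : ℝ) ^ ((m : ℝ) - k)⌋₊ with hX
  have hlQ := log_pos hQ
  have hlQe : 0 < Real.log Q ^ e := Real.rpow_pos_of_pos hlQ _
  have hsub : {a : Fin m → ℤ | (∀ i, |a i| ≤ (H : ℤ)) ∧ ∃ (p : ℤ) (q : ℕ), Q ≤ q ∧
      (q : ℝ) ≤ (H : ℝ) ^ ((m : ℝ) - k) ∧
      |∑ i, (a i : ℝ) * x i - (p : ℝ) / (q : ℝ)| ≤
        c / ((q : ℝ) ^ 2 * Real.log (q : ℝ) ^ (1 + e))} ⊆
      (((Icc Q X).biUnion fun q => Sq x e c H q : Finset (Fin m → ℤ)) : Set (Fin m → ℤ)) := by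
    rintro a ⟨ha, p, q, hq1, hq2, hq3⟩
    rw [Finset.mem_coe, Finset.mem_biUnion]
    refine ⟨q, Finset.mem_Icc.2 ⟨hq1, Nat.le_floor hq2⟩, ?_⟩
    rw [mem_Sq]
    refine ⟨ha, ?_⟩
    have hq0 : (0 : ℝ) < q := by exact_mod_cast (by omega : 0 < q)
    have hql := Real.rpow_pos_of_pos (log_pos (hQ.trans hq1)) (1 + e)
    refine (nd_le _ p).trans ?_
    have h5 : ∑ i, (a i : ℝ) * ((q : ℝ) * x i) - (p : ℝ) =
        (q : ℝ) * (∑ i, (a i : ℝ) * x i - (p : ℝ) / (q : ℝ)) := by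
      rw [mul_sub, Finset.mul_sum]
      congr 1
      · exact Finset.sum_congr rfl fun i _ => by ring
      · field_simp
    rw [h5, abs_mul, abs_of_pos hq0]
    have h6 := mul_le_mul_of_nonneg_left hq3 hq0.le
    refine h6.trans (le_of_eq ?_)
    unfold tq
    field_simp
  have hcard := Set.ncard_le_ncard hsub (Finset.finite_toSet _)
  rw [Set.ncard_coe_finset] at hcard
  have hcard2 : ({a : Fin m → ℤ | (∀ i, |a i| ≤ (H : ℤ)) ∧ ∃ (p : ℤ) (q : ℕ), Q ≤ q ∧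
      (q : ℝ) ≤ (H : ℝ) ^ ((m : ℝ) - k) ∧
      |∑ i, (a i : ℝ) * x i - (p : ℝ) / (q : ℝ)| ≤
        c / ((q : ℝ) ^ 2 * Real.log (q : ℝ) ^ (1 + e))}.ncard : ℝ) ≤
      ∑ q ∈ Icc Q X, ((Sq x e c H q).card : ℝ) := by
    have := hcard.trans Finset.card_biUnion_le
    exact_mod_cast this
  refine hcard2.trans ?_
  rcases lt_or_ge X Q with hXQ | hXQ
  · rw [Finset.Icc_eq_empty (by omega), Finset.sum_empty]
    have : 0 < 1 / e := by positivity
    positivity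
  have hsum : ∑ q ∈ Icc Q X, ((Sq x e c H q).card : ℝ) ≤
      ∑ q ∈ Icc Q X, (12 * tq e c q * (2 * (H : ℝ) + 1) ^ m +
      24 * (tq e c q * ∑ h ∈ Ico 1 (Tq e c q), Pr x H (h * q))) := by
    refine Finset.sum_le_sum fun q hq => ?_
    exact card_Sq h2 hS hc H q (hQ.trans (Finset.mem_Icc.1 hq).1)
  refine hsum.trans ?_
  rw [Finset.sum_add_distrib]
  have hA : ∑ q ∈ Icc Q X, 12 * tq e c q * (2 * (H : ℝ) + 1) ^ m ≤
      12 * (1 + 1 / e) * c * (2 * (H : ℝ) + 1) ^ m / Real.log Q ^ e := by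
    have h5 : ∑ q ∈ Icc Q X, 12 * tq e c q * (2 * (H : ℝ) + 1) ^ m =
        12 * c * (2 * (H : ℝ) + 1) ^ m *
          ∑ q ∈ Icc Q X, 1 / ((q : ℝ) * Real.log q ^ (1 + e)) := by
      rw [Finset.mul_sum]
      refine Finset.sum_congr rfl fun q _ => ?_
      unfold tq
      ring
    rw [h5]
    have h6 := mul_le_mul_of_nonneg_left (h4 e he Q X hQ)
      (by positivity : (0 : ℝ) ≤ 12 * c * (2 * (H : ℝ) + 1) ^ m)
    refine h6.trans (le_of_eq ?_)
    ring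
  have hB : ∑ q ∈ Icc Q X, 24 * (tq e c q * ∑ h ∈ Ico 1 (Tq e c q), Pr x H (h * q)) ≤
      24 * (H : ℝ) ^ ((m : ℝ) - k / 2) := by
    rw [← Finset.mul_sum]
    refine mul_le_mul_of_nonneg_left ?_ (by norm_num)
    refine le_trans ?_ (hH1 H hHa)
    refine Finset.sum_le_sum_of_subset_of_nonneg ?_ ?_
    · exact Finset.Icc_subset_Icc hQ le_rfl
    · intro q hq _
      exact mul_nonneg (tq_pos hc (Finset.mem_Icc.1 hq).1).le
        (Finset.sum_nonneg fun h _ => pr_nonneg _ _ _)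
  have hC : 24 * (H : ℝ) ^ ((m : ℝ) - k / 2) ≤ c * (2 * (H : ℝ) + 1) ^ m / Real.log Q ^ e := by
    rw [le_div_iff₀ hlQe]
    have hQX : (Q : ℝ) ≤ (H : ℝ) ^ (m : ℝ) := by
      have h5 : (Q : ℝ) ≤ X := by exact_mod_cast hXQ
      have h6 : (X : ℝ) ≤ (H : ℝ) ^ ((m : ℝ) - k) :=
        Nat.floor_le (Real.rpow_nonneg hHpos.le _)
      have h7 : (H : ℝ) ^ ((m : ℝ) - k) ≤ (H : ℝ) ^ (m : ℝ) :=
        Real.rpow_le_rpow_of_exponent_le hHone (by linarith)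
      linarith
    have hQ0 : (0 : ℝ) < Q := by exact_mod_cast (by omega : 0 < Q)
    have hlog : Real.log Q ≤ m * Real.log H := by
      have h5 := Real.log_le_log hQ0 hQX
      rwa [Real.log_rpow hHpos] at h5
    have h8 : Real.log Q ^ e ≤ ((m : ℝ) * Real.log H) ^ e :=
      Real.rpow_le_rpow hlQ.le hlog he.le
    have h9 := hH2 H hHb
    have h10 : (0 : ℝ) ≤ (H : ℝ) ^ ((m : ℝ) - k / 2) := Real.rpow_nonneg hHpos.le _
    calc 24 * (H : ℝ) ^ ((m : ℝ) - k / 2) * Real.log Q ^ e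
        ≤ 24 * (H : ℝ) ^ ((m : ℝ) - k / 2) * ((m : ℝ) * Real.log H) ^ e := by gcongr
      _ = (H : ℝ) ^ ((m : ℝ) - k / 2) * (24 * ((m : ℝ) * Real.log H) ^ e) := by ring
      _ ≤ (H : ℝ) ^ ((m : ℝ) - k / 2) * (c * (H : ℝ) ^ (k / 2)) := by gcongr
      _ = c * (H : ℝ) ^ m := by
          have : (H : ℝ) ^ ((m : ℝ) - k / 2) * (H : ℝ) ^ (k / 2) = (H : ℝ) ^ m := by
            rw [← Real.rpow_add hHpos, sub_add_cancel, Real.rpow_natCast]
          rw [← this]; ring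
      _ ≤ c * (2 * (H : ℝ) + 1) ^ m := by
          have : (H : ℝ) ≤ 2 * (H : ℝ) + 1 := by linarith
          gcongr
  calc _ ≤ 12 * (1 + 1 / e) * c * (2 * (H : ℝ) + 1) ^ m / Real.log Q ^ e +
        c * (2 * (H : ℝ) + 1) ^ m / Real.log Q ^ e := add_le_add hA (hB.trans hC)
    _ = (12 * (1 + 1 / e) + 1) * c * (2 * (H : ℝ) + 1) ^ m / Real.log Q ^ e := by ring

end Pool.Agent.Helper71.LF
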