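import Pool.Agent.Helper61.LF.GoalsN

/-!
# Project LF (MP_c65973_gt), packet FGR
-/

set_option autoImplicit false

open Pool.Agent.Helper61.LF

namespace Pool.Agent.Helper71.LF.FGR

universe u

theorem t : S_FGR.{u} := by
  classical
  intro A _ P _ _ _ τ b z r s R hcov
  obtain ⟨d, e, he⟩ := Module.Finite.exists_fin (R := A) (M := P)
  have hco : ∀ p : P, ∃ c : Fin d → A, ∑ l, c l • e l = p := by
    intro p
    have : p ∈ Submodule.span A (Set.range e) := by rw [he]; trivial
    exact (Submodule.mem_span_range_iff_exists_fun A).1 this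
  choose co hco using hco
  let S : Finset A :=
    (Finset.univ.image fun x : Fin d × Fin d => co (τ (e x.1)) x.2) ∪
    ((Finset.range r ×ˢ (Finset.univ : Finset (Fin d))).image fun x => co (b x.1) x.2) ∪
    ((Finset.range s ×ˢ (Finset.univ : Finset (Fin d))).image fun x => co (z x.1) x.2)
  let B : Subalgebra ℤ A := Algebra.adjoin ℤ (S : Set A)
  have hSB : ∀ a ∈ S, a ∈ B := fun a ha => Algebra.subset_adjoin ha
  have hτ : ∀ l m, co (τ (e l)) m ∈ B := fun l m => hSB _ (by
    apply Finset.mem_union_left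
    apply Finset.mem_union_left
    exact Finset.mem_image.2 ⟨(l, m), Finset.mem_univ _, rfl⟩)
  have hb : ∀ j < r, ∀ l, co (b j) l ∈ B := fun j hj l => hSB _ (by
    apply Finset.mem_union_left
    apply Finset.mem_union_right
    exact Finset.mem_image.2 ⟨(j, l), by simp [hj], rfl⟩)
  have hz : ∀ i < s, ∀ l, co (z i) l ∈ B := fun i hi l => hSB _ (by
    apply Finset.mem_union_right
    exact Finset.mem_image.2 ⟨(i, l), by simp [hi], rfl⟩)
  let W : P → Prop := fun p => ∃ c : Fin d → A, (∀ l, c l ∈ B) ∧ p = ∑ l, c l • e l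
  have hWτ : ∀ p, W p → W (τ p) := by
    rintro p ⟨c, hc, rfl⟩
    refine ⟨fun m => ∑ l, c l * co (τ (e l)) m, fun m => ?_, ?_⟩
    · exact Subalgebra.sum_mem B fun l _ => B.mul_mem (hc l) (hτ l m)
    · rw [map_sum]
      calc ∑ l, τ (c l • e l) = ∑ l, ∑ m, (c l * co (τ (e l)) m) • e m := by
            apply Finset.sum_congr rfl
            intro l _
            rw [map_smul]
            conv_lhs => rw [← hco (τ (e l))]
            rw [Finset.smul_sum]
            apply Finset.sum_congr rfl
            intro m _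
            rw [smul_smul]
        _ = ∑ m, (∑ l, c l * co (τ (e l)) m) • e m := by
            rw [Finset.sum_comm]
            apply Finset.sum_congr rfl
            intro m _
            rw [Finset.sum_smul]
  have hWb : ∀ j < r, ∀ n, W ((τ ^ n) (b j)) := by
    intro j hj n
    induction n with
    | zero => exact ⟨co (b j), hb j hj, by rw [hco]; rfl⟩
    | succ n ih =>
      rw [pow_succ']
      exact hWτ _ ih
  have hWz : ∀ i < s, W (z i) := fun i hi => ⟨co (z i), hz i hi, by rw [hco]⟩
  have hW : ∀ p : P, ∃ w, W w ∧ p - w ∈ R := by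
    intro p
    rcases hcov p with ⟨j, hj, n, h⟩ | ⟨i, hi, h⟩
    · exact ⟨_, hWb j hj n, h⟩
    · exact ⟨_, hWz i hi, h⟩
  have hBft : Algebra.FiniteType ℤ B := by
    have : B.FG := ⟨S, rfl⟩
    exact (Subalgebra.fg_iff_finiteType B).1 this
  haveI : IsNoetherianRing B := Algebra.FiniteType.isNoetherianRing ℤ B
  haveI hQfin : Module.Finite B (P ⧸ R) := by
    refine ⟨⟨Finset.univ.image fun l => (Submodule.Quotient.mk (p := R) (e l) : P ⧸ R), ?_⟩⟩
    rw [eq_top_iff]
    rintro q -
    obtain ⟨p, rfl⟩ := Submodule.Quotient.mk_surjective R q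
    obtain ⟨w, ⟨c, hc, rfl⟩, hpw⟩ := hW p
    have h1 : (Submodule.Quotient.mk (p := R) p : P ⧸ R) =
        ∑ l, (⟨c l, hc l⟩ : B) • (Submodule.Quotient.mk (p := R) (e l) : P ⧸ R) := by
      rw [(Submodule.Quotient.eq R).2 hpw]
      have h2 : (Submodule.Quotient.mk (p := R) (∑ l, c l • e l) : P ⧸ R) =
          R.mkQ (∑ l, c l • e l) := rfl
      rw [h2, map_sum]
      apply Finset.sum_congr rfl
      intro l _
      rw [map_smul]
      rfl
    rw [h1]
    apply Submodule.sum_mem
    intro l _
    apply Submodule.smul_mem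
    apply Submodule.subset_span
    simp
  let f : A →ₗ[A] (Fin d → P ⧸ R) :=
    LinearMap.pi fun l => LinearMap.toSpanSingleton A (P ⧸ R) (Submodule.Quotient.mk (e l))
  have hker : LinearMap.ker f = Module.annihilator A (P ⧸ R) := by
    ext a
    rw [LinearMap.mem_ker, Module.mem_annihilator]
    constructor
    · intro h q
      obtain ⟨p, rfl⟩ := Submodule.Quotient.mk_surjective R q
      have h2 : (Submodule.Quotient.mk (p := R) p : P ⧸ R) = R.mkQ (∑ l, co p l • e l) := by
        rw [hco]; rfl
      rw [h2, map_sum, Finset.smul_sum]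
      apply Finset.sum_eq_zero
      intro l _
      rw [map_smul, smul_comm]
      have h3 : a • R.mkQ (e l) = 0 := congrFun h l
      rw [h3, smul_zero]
    · intro h
      funext l
      exact h (Submodule.Quotient.mk (e l))
  let g : (A ⧸ Module.annihilator A (P ⧸ R)) →ₗ[A] (Fin d → P ⧸ R) :=
    Submodule.liftQ (Module.annihilator A (P ⧸ R)) f hker.ge
  have hg : Function.Injective g := by
    rw [← LinearMap.ker_eq_bot]
    exact Submodule.ker_liftQ_eq_bot' _ _ hker.symm
  haveI : IsNoetherian B (P ⧸ R) := isNoetherian_of_isNoetherianRing_of_finite B _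
  haveI : IsNoetherian B (Fin d → P ⧸ R) := isNoetherian_pi
  haveI : Module.Finite B (A ⧸ Module.annihilator A (P ⧸ R)) :=
    Module.Finite.of_injective (g.restrictScalars B) hg
  haveI : Algebra.FiniteType B (A ⧸ Module.annihilator A (P ⧸ R)) := inferInstance
  exact Algebra.FiniteType.trans hBft this

end Pool.Agent.Helper71.LF.FGR
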