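import Pool.Agent.Helper61.LF.Goals
import Pool.Agent.Helper61.LN.Goals

/-!
# Packet LF-QUOTZ (MP_c65973_gt): the classes are the cosets of the relations, with moves of 0-tangles
-/

set_option autoImplicit false

namespace Pool.Agent.Helper71.LF.QUOTZ

open Pool.Agent.Helper31.Sk Pool.Agent.Helper35.Skl Pool.Agent.Helper61.LN
open Pool.Agent.Helper61.LF

universe u

section

variable {A : Type u} [Ring A] (M : MovesU A) (N : MovesD A) (Z : Set (KLin A × KLin A))

theorem one_sub (hq : Pool.Agent.Helper61.LN.S_QUOT.{u}) {x y : KLin A}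
    (h : OneMoveZ M N Z x y) : x - y ∈ RelK M N ⊔ RelZ Z := by
  cases h with
  | move x y h =>
    exact Submodule.mem_sup_left ((hq A M N x y).1 (Relation.EqvGen.rel _ _ h))
  | rel x y z c h =>
    have e : z + c • x - (z + c • y) = c • (x - y) := by
      rw [smul_sub]
      abel
    rw [e]
    exact Submodule.mem_sup_right
      (Submodule.smul_mem _ _ (Submodule.subset_span ⟨x, y, h, rfl⟩))

theorem rel_eqv {d : KLin A} (h : d ∈ RelZ Z) :
    ∀ (c : A) (y : KLin A), Relation.EqvGen (OneMoveZ M N Z) (y + c • d) y := by
  unfold RelZ at h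
  induction h using Submodule.span_induction with
  | mem x hx =>
    intro c y
    obtain ⟨p, q, hpq, rfl⟩ := hx
    have h1 := OneMoveZ.rel (M := M) (N := N) (Z := Z) p q (y - c • q) c hpq
    have e1 : y - c • q + c • p = y + c • (p - q) := by
      rw [smul_sub]
      abel
    rw [e1, sub_add_cancel] at h1
    exact Relation.EqvGen.rel _ _ h1
  | zero =>
    intro c y
    rw [smul_zero, add_zero]
    exact Relation.EqvGen.refl _
  | add p q _ _ hp hq =>
    intro c y
    have h1 := hp c (y + c • q)
    have e : y + c • (p + q) = y + c • q + c • p := by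
      rw [smul_add]
      abel
    rw [e]
    exact Relation.EqvGen.trans _ _ _ h1 (hq c y)
  | smul a p _ hp =>
    intro c y
    rw [smul_smul]
    exact hp (c * a) y

end

theorem t (h : Pool.Agent.Helper61.LN.S_QUOT.{u}) : Pool.Agent.Helper61.LF.S_QUOTZ.{u} := by
  intro A _ M N Z x y
  constructor
  · intro hxy
    induction hxy with
    | rel x y h' => exact one_sub M N Z h h'
    | refl x => rw [sub_self]; exact Submodule.zero_mem _
    | symm x y _ ih => rw [← neg_sub]; exact Submodule.neg_mem _ ih
    | trans x y z _ _ ih1 ih2 =>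
      have e : x - z = (x - y) + (y - z) := by abel
      rw [e]
      exact Submodule.add_mem _ ih1 ih2
  · intro hxy
    obtain ⟨a, ha, d, hd, had⟩ := Submodule.mem_sup.1 hxy
    have h1 : Relation.EqvGen (OneMove M N) x (y + d) := by
      rw [h A M N]
      have e : x - (y + d) = a := by
        rw [← sub_sub, ← had]
        abel
      rw [e]
      exact ha
    have h2 : Relation.EqvGen (OneMoveZ M N Z) x (y + d) :=
      Relation.EqvGen.mono (fun a b hab => OneMoveZ.move a b hab) _ _ h1
    have h3 := rel_eqv M N Z hd 1 y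
    rw [one_smul] at h3
    exact Relation.EqvGen.trans _ _ _ h2 h3

end Pool.Agent.Helper71.LF.QUOTZ
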