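import Pool.Agent.Helper71.LF.FIN
import Pool.Agent.Helper73.LF.GoalsC

/-!
# Linear forms in algebraic numbers (MP_c307ca_nt): the final statement with a shift
-/

set_option autoImplicit false

open Finset

namespace Pool.Agent.Helper71.LF

open Pool.Agent.Helper98.Lang Pool.Agent.Helper73.LF

/-- The vectors in the box for which the value at `q` is close to an integer. -/
noncomputable def SqB {m : ℕ} (x : Fin m → ℝ) (β e c : ℝ) (H q : ℕ) : Finset (Fin m → ℤ) := by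
  classical
  exact (Fintype.piFinset fun _ : Fin m => Icc (-(H : ℤ)) H).filter
    (fun a => nd ((q : ℝ) * β + ∑ i, (a i : ℝ) * ((q : ℝ) * x i)) ≤ tq e c q)

theorem mem_SqB {m : ℕ} (x : Fin m → ℝ) (β e c : ℝ) (H q : ℕ) (a : Fin m → ℤ) :
    a ∈ SqB x β e c H q ↔ (∀ i, |a i| ≤ (H : ℤ)) ∧
      nd ((q : ℝ) * β + ∑ i, (a i : ℝ) * ((q : ℝ) * x i)) ≤ tq e c q := by
  classical
  unfold SqB
  rw [Finset.mem_filter, Fintype.mem_piFinset]
  simp only [Finset.mem_Icc, abs_le]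

theorem card_SqB_le {m : ℕ} (x : Fin m → ℝ) (β e c : ℝ) (H q : ℕ) :
    ((SqB x β e c H q).card : ℝ) ≤ (2 * (H : ℝ) + 1) ^ m := by
  classical
  have h1 : (SqB x β e c H q).card ≤ (2 * H + 1) ^ m := by
    unfold SqB
    refine (Finset.card_filter_le _ _).trans ?_
    rw [Fintype.card_piFinset]
    have : (Icc (-(H : ℤ)) H).card = 2 * H + 1 := by
      rw [Int.card_Icc]; omega
    simp [this]
  calc ((SqB x β e c H q).card : ℝ) ≤ (((2 * H + 1) ^ m : ℕ) : ℝ) := by exact_mod_cast h1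
    _ = (2 * (H : ℝ) + 1) ^ m := by push_cast; rfl

theorem card_SqB (h2 : GFouB) {m : ℕ} {x : Fin m → ℝ} (hS : SchP x) (β : ℝ) {e c : ℝ} (hc : 0 < c)
    (H q : ℕ) (hq : 2 ≤ q) :
    ((SqB x β e c H q).card : ℝ) ≤ 12 * tq e c q * (2 * (H : ℝ) + 1) ^ m +
      24 * (tq e c q * ∑ h ∈ Ico 1 (Tq e c q), Pr x H (h * q)) := by
  have ht := tq_pos (e := e) hc hq
  have hB : (0 : ℝ) ≤ (2 * (H : ℝ) + 1) ^ m := by positivity
  have hP : 0 ≤ ∑ h ∈ Ico 1 (Tq e c q), Pr x H (h * q) :=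
    Finset.sum_nonneg fun h _ => pr_nonneg _ _ _
  rcases le_or_gt (1 / 2) (tq e c q) with hle | hlt
  · have h3 := card_SqB_le x β e c H q
    have h4 : (2 * (H : ℝ) + 1) ^ m ≤ 12 * tq e c q * (2 * (H : ℝ) + 1) ^ m := by
      nlinarith
    have h5 := mul_nonneg ht.le hP
    linarith
  · have h1 : 1 < 1 / (2 * tq e c q) := by
      rw [lt_div_iff₀ (by positivity)]; linarith
    have hT : 1 ≤ Tq e c q := by
      unfold Tq
      exact Nat.le_floor (by exact_mod_cast h1.le)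
    have hT' : (1 : ℝ) ≤ Tq e c q := by exact_mod_cast hT
    have hT1 : (Tq e c q : ℝ) ≤ 1 / (2 * tq e c q) := Nat.floor_le (by positivity)
    have hT2 : 1 / (2 * tq e c q) < (Tq e c q : ℝ) + 1 := Nat.lt_floor_add_one _
    have h3 : tq e c q ≤ 1 / (2 * (Tq e c q : ℝ)) := by
      rw [le_div_iff₀ (by positivity)] at hT1 ⊢
      linarith
    have h4 : 3 / (Tq e c q : ℝ) ≤ 12 * tq e c q := by
      rw [div_lt_iff₀ (by positivity)] at hT2
      rw [div_le_iff₀ (by positivity)]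
      nlinarith
    have h5 := h2 m H (Tq e c q) (fun i => (q : ℝ) * x i) ((q : ℝ) * β) hT (by
      intro h hh i
      have h6 : (h : ℝ) * ((q : ℝ) * x i) = ((h * q : ℕ) : ℝ) * x i := by push_cast; ring
      show 0 < nd ((h : ℝ) * ((q : ℝ) * x i))
      rw [h6]
      refine nd_pos hS _ ?_ i
      exact Nat.succ_le_of_lt (Nat.mul_pos (by omega) (by omega))) (SqB x β e c H q) (by
      intro a ha
      rw [mem_SqB] at ha
      exact ⟨ha.1, ha.2.trans h3⟩)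
    have h7 : ∑ h ∈ Ico 1 (Tq e c q), Pr (fun i => (q : ℝ) * x i) H h =
        ∑ h ∈ Ico 1 (Tq e c q), Pr x H (h * q) :=
      Finset.sum_congr rfl fun h _ => pr_mul x H h q
    rw [h7] at h5
    refine h5.trans ?_
    have h8 : 0 ≤ (2 * (H : ℝ) + 1) ^ m + 2 * ∑ h ∈ Ico 1 (Tq e c q), Pr x H (h * q) := by
      positivity
    have h9 := mul_le_mul_of_nonneg_right h4 h8
    linarith

theorem final_of_shift (h1 : GSch) (h2 : GFouB) (h3 : GBlk) (h4 : GLog) :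
    Pool.Agent.Helper73.LF.FinalB := by
  classical
  intro e he
  refine ⟨12 * (1 + 1 / e) + 1, ?_⟩
  intro m x hm halg hind c k hc hk
  have hS : SchP x := h1 m x halg hind
  obtain ⟨H1, hH1⟩ := h3 m x hS e c k he hc hk
  obtain ⟨H2, hH22, hH2⟩ := log_small m e c k hc hk hm
  refine ⟨max H1 H2, ?_⟩
  intro H hH Q hQ β
  have hHa : H1 ≤ H := le_trans (le_max_left _ _) hH
  have hHb : H2 ≤ H := le_trans (le_max_right _ _) hH
  have hHpos : (0 : ℝ) < H := by exact_mod_cast (by omega : 0 < H)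
  have hHone : (1 : ℝ) ≤ H := by exact_mod_cast (by omega : 1 ≤ H)
  set X : ℕ := ⌊(H : ℝ) ^ ((m : ℝ) - k)⌋₊ with hX
  have hlQ := log_pos hQ
  have hlQe : 0 < Real.log Q ^ e := Real.rpow_pos_of_pos hlQ _
  have hsub : {a : Fin m → ℤ | (∀ i, |a i| ≤ (H : ℤ)) ∧ ∃ (p : ℤ) (q : ℕ), Q ≤ q ∧
      (q : ℝ) ≤ (H : ℝ) ^ ((m : ℝ) - k) ∧
      |β + ∑ i, (a i : ℝ) * x i - (p : ℝ) / (q : ℝ)| ≤
        c / ((q : ℝ) ^ 2 * Real.log (q : ℝ) ^ (1 + e))} ⊆
      (((Icc Q X).biUnion fun q => SqB x β e c H q : Finset (Fin m → ℤ)) : Set (Fin m → ℤ)) := by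
    rintro a ⟨ha, p, q, hq1, hq2, hq3⟩
    rw [Finset.mem_coe, Finset.mem_biUnion]
    refine ⟨q, Finset.mem_Icc.2 ⟨hq1, Nat.le_floor hq2⟩, ?_⟩
    rw [mem_SqB]
    refine ⟨ha, ?_⟩
    have hq0 : (0 : ℝ) < q := by exact_mod_cast (by omega : 0 < q)
    have hql := Real.rpow_pos_of_pos (log_pos (hQ.trans hq1)) (1 + e)
    refine (nd_le _ p).trans ?_
    have h5 : (q : ℝ) * β + ∑ i, (a i : ℝ) * ((q : ℝ) * x i) - (p : ℝ) =
        (q : ℝ) * (β + ∑ i, (a i : ℝ) * x i - (p : ℝ) / (q : ℝ)) := by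
      have h51 : ∑ i, (a i : ℝ) * ((q : ℝ) * x i) = (q : ℝ) * ∑ i, (a i : ℝ) * x i := by
        rw [Finset.mul_sum]
        exact Finset.sum_congr rfl fun i _ => by ring
      have h52 : (q : ℝ) * ((p : ℝ) / (q : ℝ)) = p := by field_simp
      rw [h51, mul_sub, mul_add, h52]
    rw [h5, abs_mul, abs_of_pos hq0]
    have h6 := mul_le_mul_of_nonneg_left hq3 hq0.le
    refine h6.trans (le_of_eq ?_)
    unfold tq
    field_simp
  have hcard := Set.ncard_le_ncard hsub (Finset.finite_toSet _)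
  rw [Set.ncard_coe_finset] at hcard
  have hcard2 : ({a : Fin m → ℤ | (∀ i, |a i| ≤ (H : ℤ)) ∧ ∃ (p : ℤ) (q : ℕ), Q ≤ q ∧
      (q : ℝ) ≤ (H : ℝ) ^ ((m : ℝ) - k) ∧
      |β + ∑ i, (a i : ℝ) * x i - (p : ℝ) / (q : ℝ)| ≤
        c / ((q : ℝ) ^ 2 * Real.log (q : ℝ) ^ (1 + e))}.ncard : ℝ) ≤
      ∑ q ∈ Icc Q X, ((SqB x β e c H q).card : ℝ) := by
    have := hcard.trans Finset.card_biUnion_le
    exact_mod_cast this
  refine hcard2.trans ?_
  rcases lt_or_ge X Q with hXQ | hXQ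
  · rw [Finset.Icc_eq_empty (by omega), Finset.sum_empty]
    have : 0 < 1 / e := by positivity
    positivity
  have hsum : ∑ q ∈ Icc Q X, ((SqB x β e c H q).card : ℝ) ≤
      ∑ q ∈ Icc Q X, (12 * tq e c q * (2 * (H : ℝ) + 1) ^ m +
      24 * (tq e c q * ∑ h ∈ Ico 1 (Tq e c q), Pr x H (h * q))) := by
    refine Finset.sum_le_sum fun q hq => ?_
    exact card_SqB h2 hS β hc H q (hQ.trans (Finset.mem_Icc.1 hq).1)
  refine hsum.trans ?_
  rw [Finset.sum_add_distrib]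
  have hA : ∑ q ∈ Icc Q X, 12 * tq e c q * (2 * (H : ℝ) + 1) ^ m ≤
      12 * (1 + 1 / e) * c * (2 * (H : ℝ) + 1) ^ m / Real.log Q ^ e := by
    have h5 : ∑ q ∈ Icc Q X, 12 * tq e c q * (2 * (H : ℝ) + 1) ^ m =
        12 * c * (2 * (H : ℝ) + 1) ^ m *
          ∑ q ∈ Icc Q X, 1 / ((q : ℝ) * Real.log q ^ (1 + e)) := by
      rw [Finset.mul_sum]
      refine Finset.sum_congr rfl fun q _ => ?_
      unfold tq
      ring
    rw [h5]
    have h6 := mul_le_mul_of_nonneg_left (h4 e he Q X hQ)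
      (by positivity : (0 : ℝ) ≤ 12 * c * (2 * (H : ℝ) + 1) ^ m)
    refine h6.trans (le_of_eq ?_)
    ring
  have hB : ∑ q ∈ Icc Q X, 24 * (tq e c q * ∑ h ∈ Ico 1 (Tq e c q), Pr x H (h * q)) ≤
      24 * (H : ℝ) ^ ((m : ℝ) - k / 2) := by
    rw [← Finset.mul_sum]
    refine mul_le_mul_of_nonneg_left ?_ (by norm_num)
    refine le_trans ?_ (hH1 H hHa)
    refine Finset.sum_le_sum_of_subset_of_nonneg ?_ ?_
    · exact Finset.Icc_subset_Icc hQ le_rfl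
    · intro q hq _
      exact mul_nonneg (tq_pos hc (Finset.mem_Icc.1 hq).1).le
        (Finset.sum_nonneg fun h _ => pr_nonneg _ _ _)
  have hC : 24 * (H : ℝ) ^ ((m : ℝ) - k / 2) ≤ c * (2 * (H : ℝ) + 1) ^ m / Real.log Q ^ e := by
    rw [le_div_iff₀ hlQe]
    have hQX : (Q : ℝ) ≤ (H : ℝ) ^ (m : ℝ) := by
      have h5 : (Q : ℝ) ≤ X := by exact_mod_cast hXQ
      have h6 : (X : ℝ) ≤ (H : ℝ) ^ ((m : ℝ) - k) :=
        Nat.floor_le (Real.rpow_nonneg hHpos.le _)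
      have h7 : (H : ℝ) ^ ((m : ℝ) - k) ≤ (H : ℝ) ^ (m : ℝ) :=
        Real.rpow_le_rpow_of_exponent_le hHone (by linarith)
      linarith
    have hQ0 : (0 : ℝ) < Q := by exact_mod_cast (by omega : 0 < Q)
    have hlog : Real.log Q ≤ m * Real.log H := by
      have h5 := Real.log_le_log hQ0 hQX
      rwa [Real.log_rpow hHpos] at h5
    have h8 : Real.log Q ^ e ≤ ((m : ℝ) * Real.log H) ^ e :=
      Real.rpow_le_rpow hlQ.le hlog he.le
    have h9 := hH2 H hHb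
    have h10 : (0 : ℝ) ≤ (H : ℝ) ^ ((m : ℝ) - k / 2) := Real.rpow_nonneg hHpos.le _
    calc 24 * (H : ℝ) ^ ((m : ℝ) - k / 2) * Real.log Q ^ e
        ≤ 24 * (H : ℝ) ^ ((m : ℝ) - k / 2) * ((m : ℝ) * Real.log H) ^ e := by gcongr
      _ = (H : ℝ) ^ ((m : ℝ) - k / 2) * (24 * ((m : ℝ) * Real.log H) ^ e) := by ring
      _ ≤ (H : ℝ) ^ ((m : ℝ) - k / 2) * (c * (H : ℝ) ^ (k / 2)) := by gcongr
      _ = c * (H : ℝ) ^ m := by
          have : (H : ℝ) ^ ((m : ℝ) - k / 2) * (H : ℝ) ^ (k / 2) = (H : ℝ) ^ m := by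
            rw [← Real.rpow_add hHpos, sub_add_cancel, Real.rpow_natCast]
          rw [← this]; ring
      _ ≤ c * (2 * (H : ℝ) + 1) ^ m := by
          have : (H : ℝ) ≤ 2 * (H : ℝ) + 1 := by linarith
          gcongr
  calc _ ≤ 12 * (1 + 1 / e) * c * (2 * (H : ℝ) + 1) ^ m / Real.log Q ^ e +
        c * (2 * (H : ℝ) + 1) ^ m / Real.log Q ^ e := add_le_add hA (hB.trans hC)
    _ = (12 * (1 + 1 / e) + 1) * c * (2 * (H : ℝ) + 1) ^ m / Real.log Q ^ e := by ring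

theorem final_shift : Pool.Agent.Helper73.LF.FinalB → Pool.Agent.Helper73.LF.Final := by
  intro h e he
  obtain ⟨C, hC⟩ := h e he
  refine ⟨C, fun m x hm ha hi c k hc hk => ?_⟩
  obtain ⟨H0, hH0⟩ := hC m x hm ha hi c k hc hk
  refine ⟨H0, fun H hH Q hQ => ?_⟩
  have := hH0 H hH Q hQ 0
  simpa only [zero_add] using this

end Pool.Agent.Helper71.LF
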